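import Pool.Agent.H37.CV.Targets

/-!
# Selberg's weights are bounded by one
-/

set_option autoImplicit false

namespace Pool.Agent.H49.CV

open Pool.Agent.H37.CV

lemma fS_ge {α : Type} {N : α → ℝ} (hN : ∀ P, 2 ≤ N P) (S : Finset α) : 1 ≤ fS N S := by
  rw [fS]
  calc (1 : ℝ) = ∏ P ∈ S, (1 : ℝ) := by rw [Finset.prod_const_one]
    _ ≤ _ := Finset.prod_le_prod (fun _ _ => zero_le_one) fun P _ => by linarith [hN P]

lemma nS_ge {α : Type} {N : α → ℝ} (hN : ∀ P, 2 ≤ N P) (S : Finset α) : 1 ≤ nS N S := by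
  rw [nS]
  calc (1 : ℝ) = ∏ P ∈ S, (1 : ℝ) := by rw [Finset.prod_const_one]
    _ ≤ _ := Finset.prod_le_prod (fun _ _ => zero_le_one) fun P _ => by linarith [hN P]

lemma nS_mono {α : Type} {N : α → ℝ} (hN : ∀ P, 2 ≤ N P) {S T : Finset α} (h : S ⊆ T) :
    nS N S ≤ nS N T := by
  classical
  have h1 : nS N (T \ S) * nS N S = nS N T := Finset.prod_sdiff h
  rw [← h1]
  exact le_mul_of_one_le_left (by linarith [nS_ge hN S]) (nS_ge hN _)

lemma sum_inv {α : Type} {N : α → ℝ} (hN : ∀ P, 2 ≤ N P) (S : Finset α) :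
    ∑ k ∈ S.powerset, (fS N k)⁻¹ = nS N S / fS N S := by
  classical
  have h1 : ∀ k ∈ S.powerset, (fS N k)⁻¹ = ∏ P ∈ k, (N P - 1)⁻¹ := by
    intro k _
    rw [fS, Finset.prod_inv_distrib]
  rw [Finset.sum_congr rfl h1, ← Finset.prod_one_add, nS, fS, ← Finset.prod_div_distrib]
  refine Finset.prod_congr rfl fun P _ => ?_
  have : N P - 1 ≠ 0 := by
    have := hN P
    intro h
    linarith
  field_simp
  ring

theorem pf_CX : T_CX := by
  classical
  intro α N A M hN hM
  have hf0 : ∀ S : Finset α, 0 < fS N S := fun S => lt_of_lt_of_le zero_lt_one (fS_ge hN S)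
  have hn0 : ∀ S : Finset α, 0 < nS N S := fun S => lt_of_lt_of_le zero_lt_one (nS_ge hN S)
  have hG : 1 ≤ GS N A M := by
    rw [GS]
    have hmem : (∅ : Finset α) ∈ DS N A M := by
      rw [DS, Finset.mem_filter]
      exact ⟨Finset.empty_mem_powerset _, by rw [nS, Finset.prod_empty]; exact hM⟩
    have h1 := Finset.single_le_sum (f := fun S => (fS N S)⁻¹)
      (fun S _ => (inv_pos.2 (hf0 S)).le) hmem
    simpa [fS] using h1
  refine ⟨?_, hG, ?_⟩
  · rw [xS]
    have h1 : (DS N A M).filter (fun T => Disjoint ∅ T ∧ nS N ∅ * nS N T ≤ M) = DS N A M := by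
      refine Finset.filter_true_of_mem fun T hT => ?_
      rw [DS, Finset.mem_filter] at hT
      refine ⟨Finset.disjoint_empty_left _, ?_⟩
      rw [show nS N ∅ = 1 from Finset.prod_empty, one_mul]
      exact hT.2
    have h2 : ∑ T ∈ (DS N A M).filter (fun T => Disjoint ∅ T ∧ nS N ∅ * nS N T ≤ M),
        (fS N T)⁻¹ = GS N A M := by
      rw [GS]
      refine Finset.sum_congr ?_ fun _ _ => rfl
      convert h1
    rw [h2, Finset.card_empty, pow_zero, show nS N ∅ = 1 from Finset.prod_empty,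
      show fS N ∅ = 1 from Finset.prod_empty, div_one, one_mul, one_mul,
      div_self (by linarith : GS N A M ≠ 0)]
  · intro S hS
    rw [xS]
    obtain ⟨D, hD⟩ : ∃ D : Finset (Finset α),
      D = (DS N A M).filter (fun T => Disjoint S T ∧ nS N S * nS N T ≤ M) := ⟨_, rfl⟩
    have hDm : ∀ T, T ∈ D ↔ (T ⊆ A ∧ nS N T ≤ M) ∧ Disjoint S T ∧ nS N S * nS N T ≤ M := by
      intro T
      rw [hD, Finset.mem_filter, DS, Finset.mem_filter, Finset.mem_powerset]
    have hsum : ∑ T ∈ (DS N A M).filter (fun T => Disjoint S T ∧ nS N S * nS N T ≤ M),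
        (fS N T)⁻¹ = ∑ T ∈ D, (fS N T)⁻¹ := by
      refine Finset.sum_congr ?_ fun _ _ => rfl
      rw [hD]
    rw [hsum]
    have hs0 : 0 ≤ ∑ T ∈ D, (fS N T)⁻¹ := Finset.sum_nonneg fun T _ => (inv_pos.2 (hf0 T)).le
    have hq0 : 0 < nS N S / fS N S := div_pos (hn0 S) (hf0 S)
    have hG0 : 0 < GS N A M := by linarith
    rw [abs_div, abs_mul, abs_mul, abs_pow, abs_neg, abs_one, one_pow, one_mul, abs_of_pos hq0,
      abs_of_nonneg hs0, abs_of_pos hG0, div_le_one hG0, ← sum_inv hN S, Finset.sum_mul_sum,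
      ← Finset.sum_product']
    have hinj : Set.InjOn (fun p : Finset α × Finset α => p.1 ∪ p.2)
        ((S.powerset ×ˢ D : Finset (Finset α × Finset α)) : Set (Finset α × Finset α)) := by
      rintro ⟨k, R⟩ h1 ⟨k', R'⟩ h2 h3
      simp only [Finset.coe_product, Set.mem_prod, Finset.mem_coe, Finset.mem_powerset,
        hDm] at h1 h2
      simp only at h3
      have hd1 : Disjoint k R := Finset.disjoint_of_subset_left h1.1 h1.2.2.1
      have hd2 : Disjoint k' R' := Finset.disjoint_of_subset_left h2.1 h2.2.2.1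
      have e1 : (k ∪ R) ∩ S = k := by
        rw [Finset.union_inter_distrib_right, Finset.inter_eq_left.2 h1.1,
          Finset.disjoint_iff_inter_eq_empty.1 h1.2.2.1.symm, Finset.union_empty]
      have e2 : (k' ∪ R') ∩ S = k' := by
        rw [Finset.union_inter_distrib_right, Finset.inter_eq_left.2 h2.1,
          Finset.disjoint_iff_inter_eq_empty.1 h2.2.2.1.symm, Finset.union_empty]
      have e3 : k = k' := by rw [← e1, h3, e2]
      subst e3
      have e4 : (k ∪ R) \ k = R := Finset.union_sdiff_cancel_left hd1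
      have e5 : (k ∪ R') \ k = R' := Finset.union_sdiff_cancel_left hd2
      rw [Prod.mk.injEq]
      exact ⟨rfl, by rw [← e4, h3, e5]⟩
    have hval : ∀ p ∈ S.powerset ×ˢ D, (fS N p.1)⁻¹ * (fS N p.2)⁻¹ = (fS N (p.1 ∪ p.2))⁻¹ := by
      intro p hp
      rw [Finset.mem_product, Finset.mem_powerset, hDm] at hp
      have hd : Disjoint p.1 p.2 := Finset.disjoint_of_subset_left hp.1 hp.2.2.1
      have : fS N (p.1 ∪ p.2) = fS N p.1 * fS N p.2 := Finset.prod_union hd
      rw [this, mul_inv]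
    rw [Finset.sum_congr rfl hval, ← Finset.sum_image (f := fun T => (fS N T)⁻¹) hinj, GS]
    refine Finset.sum_le_sum_of_subset_of_nonneg ?_ fun T _ _ => (inv_pos.2 (hf0 T)).le
    intro T hT
    rw [Finset.mem_image] at hT
    obtain ⟨p, hp, rfl⟩ := hT
    rw [Finset.mem_product, Finset.mem_powerset, hDm] at hp
    rw [DS, Finset.mem_filter, Finset.mem_powerset]
    have hd : Disjoint p.1 p.2 := Finset.disjoint_of_subset_left hp.1 hp.2.2.1
    refine ⟨Finset.union_subset (hp.1.trans hS) hp.2.1.1, ?_⟩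
    have : nS N (p.1 ∪ p.2) = nS N p.1 * nS N p.2 := Finset.prod_union hd
    rw [this]
    exact (mul_le_mul_of_nonneg_right (nS_mono hN hp.1) (hn0 _).le).trans hp.2.2.2

end Pool.Agent.H49.CV
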