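import Pool.Agent.H21.CV.Targets

/-! MP_6e60ff_nt, board cvz_modules, row FAM: from one curve to all curves of small height. -/

namespace Pool.Agent.H49.CV

open Finset MvPolynomial Pool.Agent.H31.RZ Pool.Agent.H21.CV

theorem NN2 (k : ℕ) : NN 2 k = (k + 2).choose 2 := by
  unfold NN Mon
  rw [Finset.card_finsuppAntidiag_nat_eq_choose]
  have h : #(Finset.univ : Finset (Fin (2 + 1))) = 3 := by simp
  rw [h]
  have h2 : 3 + k - 1 = k + 2 := by omega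
  rw [h2]
  exact Nat.choose_symm_of_eq_add rfl

theorem Pval (D : ℕ) : (((D + 2).choose 2 : ℕ) : ℝ) = ((D : ℝ) + 1) * ((D : ℝ) + 2) / 2 := by
  rw [Nat.cast_choose_two]
  push_cast
  ring

theorem NN_pos (n d : ℕ) : 1 ≤ NN n d := by
  unfold NN
  rw [Nat.one_le_iff_ne_zero]
  intro h
  rw [Finset.card_eq_zero] at h
  have : Finsupp.single (0 : Fin (n + 1)) d ∈ Mon n d := by
    rw [mem_Mon, Finsupp.degree_single]
  rw [h] at this
  exact absurd this (Finset.notMem_empty _)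

open Classical in
/-- the polynomials which occur -/
noncomputable def WS (D U : ℕ) : Finset (MvPolynomial (Fin 3) ℤ) :=
  (Finset.range (D + 1)).biUnion fun k => FF 2 k U

theorem card_WS (D U : ℕ) : #(WS D U) ≤ (D + 1) * (2 * U + 1) ^ (D + 2).choose 2 := by
  classical
  unfold WS
  refine (Finset.card_biUnion_le_card_mul _ _ ((2 * U + 1) ^ (D + 2).choose 2) ?_).trans ?_
  · intro k hk
    rw [card_FF, NN2]
    apply Nat.pow_le_pow_right (by omega)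
    apply Nat.choose_le_choose
    have := Finset.mem_range.1 hk
    omega
  · rw [Finset.card_range]

theorem floor_facts (a : ℝ) (ha : 1 ≤ a) : 1 ≤ ⌊a⌋₊ ∧ ((⌊a⌋₊ : ℕ) : ℝ) ≤ a ∧
    (2 * ((⌊a⌋₊ : ℕ) : ℝ) + 1) ≤ 3 * a := by
  have h1 : ((⌊a⌋₊ : ℕ) : ℝ) ≤ a := Nat.floor_le (by linarith)
  refine ⟨?_, h1, by linarith⟩
  rw [Nat.one_le_floor_iff]
  exact ha

theorem int_le (x : ℤ) (a : ℝ) (h : |((x : ℤ) : ℝ)| ≤ a) : |x| ≤ ((⌊a⌋₊ : ℕ) : ℤ) := by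
  have h1 : ((x.natAbs : ℕ) : ℝ) ≤ a := by
    rw [Nat.cast_natAbs, Int.cast_abs]
    exact h
  have h2 : x.natAbs ≤ ⌊a⌋₊ := Nat.le_floor h1
  rw [Int.abs_eq_natAbs]
  exact_mod_cast h2

theorem int_le_pow (x : ℤ) (H K : ℕ) (t : ℝ) (hH : 1 ≤ H) (ht : t ≤ K)
    (h : |((x : ℤ) : ℝ)| ≤ (H : ℝ) ^ t) : |x| ≤ (H : ℤ) ^ K := by
  have h1 : (H : ℝ) ^ t ≤ (H : ℝ) ^ (K : ℝ) :=
    Real.rpow_le_rpow_of_exponent_le (by exact_mod_cast hH) ht
  rw [Real.rpow_natCast] at h1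
  have h2 := h.trans h1
  rw [← Int.cast_abs] at h2
  exact_mod_cast h2

theorem pf_FAM : T_FAM := by
  classical
  intro hMAIN m d D η θ hd hη hθ hS
  set S : ℝ := η * (((m : ℝ) + 2) ^ 2 + d) + θ * ((m : ℝ) * ((D : ℝ) + 1) * ((D : ℝ) + 2) / 2)
    with hSdef
  have hδ : 0 < (1 - S) / 2 := by linarith
  obtain ⟨C, hC, hMM⟩ := hMAIN m d D (⌈θ⌉₊ + ⌈η⌉₊ + 1) ((1 - S) / 2) hd hδ
  set P : ℕ := (D + 2).choose 2 with hP
  refine ⟨3 ^ ((m + 2) ^ 2) * (((D : ℝ) + 1) ^ m * (((D : ℝ) + 1) * 3 ^ P) ^ m) * C,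
    (1 - S) / 2, hδ, ?_⟩
  intro H hH
  have hH' : (1 : ℝ) ≤ (H : ℝ) := by exact_mod_cast hH
  have hH0 : (0 : ℝ) < (H : ℝ) := by linarith
  have ha1 : (1 : ℝ) ≤ (H : ℝ) ^ η := Real.one_le_rpow hH' hη
  have hb1 : (1 : ℝ) ≤ (H : ℝ) ^ θ := Real.one_le_rpow hH' hθ
  obtain ⟨hV1, hV2, hV3⟩ := floor_facts _ ha1
  obtain ⟨hU1, hU2, hU3⟩ := floor_facts _ hb1
  set V : ℕ := ⌊(H : ℝ) ^ η⌋₊ with hV
  set U : ℕ := ⌊(H : ℝ) ^ θ⌋₊ with hU
  set a : ℝ := (H : ℝ) ^ η with ha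
  set b : ℝ := (H : ℝ) ^ θ with hb
  set Bd : ℝ := C * (V : ℝ) ^ d * (H : ℝ) ^ ((1 - S) / 2) * (H : ℝ) ^ (NN (m + 1) d - 1) with hBd
  have hBd0 : 0 ≤ Bd := by
    rw [hBd]
    positivity
  -- the index set
  set I : Finset ((Fin (m + 2) → Fin (m + 2) → ℤ) × (Fin m → ℕ) × (Fin m → MvPolynomial (Fin 3) ℤ)) :=
    (Fintype.piFinset fun _ : Fin (m + 2) => Fintype.piFinset fun _ : Fin (m + 2) =>
      Finset.Icc (-(V : ℤ)) V) ×ˢ ((Fintype.piFinset fun _ : Fin m => Finset.range (D + 1)) ×ˢ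
      (Fintype.piFinset fun _ : Fin m => WS D U)) with hI
  set A : ((Fin (m + 2) → Fin (m + 2) → ℤ) × (Fin m → ℕ) × (Fin m → MvPolynomial (Fin 3) ℤ)) →
      Set (MvPolynomial (Fin (m + 1 + 1)) ℤ) := fun i =>
    {f | f ∈ FF (m + 1) d H ∧ (IsD D i.1 i.2.1 i.2.2 ∧
      (∀ k μ, |(i.2.2 k).coeff μ| ≤ (H : ℤ) ^ (⌈θ⌉₊ + ⌈η⌉₊ + 1)) ∧
      (∀ k j, |i.1 k j| ≤ (H : ℤ) ^ (⌈θ⌉₊ + ⌈η⌉₊ + 1))) ∧
      ∃ x : Fin (m + 2) → ℤ, x ≠ 0 ∧ OnC i.1 i.2.2 x ∧ eval x f = 0} with hA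
  have hAfin : ∀ i, (A i).Finite := fun i =>
    (Finset.finite_toSet (FF (m + 1) d H)).subset fun f hf => hf.1
  have hAle : ∀ i ∈ I, ((A i).ncard : ℝ) ≤ Bd := by
    intro i hi
    by_cases hc : IsD D i.1 i.2.1 i.2.2 ∧
      (∀ k μ, |(i.2.2 k).coeff μ| ≤ (H : ℤ) ^ (⌈θ⌉₊ + ⌈η⌉₊ + 1)) ∧
      (∀ k j, |i.1 k j| ≤ (H : ℤ) ^ (⌈θ⌉₊ + ⌈η⌉₊ + 1))
    · have h1 := hMM H V i.1 i.2.1 i.2.2 hH hV1 hc.1 hc.2.2 (fun j => by
        rw [hI, Finset.mem_product] at hi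
        have h2 := Fintype.mem_piFinset.1 hi.1
        have h3 := Fintype.mem_piFinset.1 (h2 0) j
        have h4 := Fintype.mem_piFinset.1 (h2 1) j
        rw [Finset.mem_Icc, ← abs_le] at h3 h4
        exact ⟨h3, h4⟩) hc.2.1
      refine le_trans ?_ h1
      have h5 : (A i).ncard ≤ {f | f ∈ FF (m + 1) d H ∧ ∃ x : Fin (m + 2) → ℤ, x ≠ 0 ∧
          OnC i.1 i.2.2 x ∧ eval x f = 0}.ncard := by
        apply Set.ncard_le_ncard
        · intro f hf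
          exact ⟨hf.1, hf.2.2⟩
        · exact (Finset.finite_toSet (FF (m + 1) d H)).subset fun f hf => hf.1
      exact_mod_cast h5
    · have h1 : A i = ∅ := by
        rw [Set.eq_empty_iff_forall_notMem]
        intro f hf
        exact hc hf.2.1
      rw [h1, Set.ncard_empty]
      simpa using hBd0
  have hsub : {f | f ∈ FF (m + 1) d H ∧ ∃ (x : Fin (m + 2) → ℤ)
      (z : Matrix (Fin (m + 2)) (Fin (m + 2)) ℤ)
      (e : Fin m → ℕ) (w : Fin m → MvPolynomial (Fin 3) ℤ), x ≠ 0 ∧ IsD D z e w ∧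
      (∀ i j, |((z i j : ℤ) : ℝ)| ≤ (H : ℝ) ^ η) ∧
      (∀ i μ, |(((w i).coeff μ : ℤ) : ℝ)| ≤ (H : ℝ) ^ θ) ∧ OnC z w x ∧
      eval x f = 0} ⊆ ⋃ i ∈ I, A i := by
    rintro f ⟨hf, x, z, e, w, hx, hD, hz, hw, hon, hev⟩
    rw [Set.mem_iUnion₂]
    refine ⟨(z, e, w), ?_, hf, ⟨hD, ?_, ?_⟩, x, hx, hon, hev⟩
    · rw [hI, Finset.mem_product, Finset.mem_product]
      refine ⟨?_, ?_, ?_⟩
      · rw [Fintype.mem_piFinset]
        intro i
        rw [Fintype.mem_piFinset]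
        intro j
        rw [Finset.mem_Icc, ← abs_le]
        exact int_le _ _ (hz i j)
      · rw [Fintype.mem_piFinset]
        intro i
        rw [Finset.mem_range]
        have := (hD.2 i).2.1
        change e i < D + 1
        omega
      · rw [Fintype.mem_piFinset]
        intro i
        unfold WS
        rw [Finset.mem_biUnion]
        refine ⟨e i, ?_, ?_⟩
        · rw [Finset.mem_range]
          have := (hD.2 i).2.1
          omega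
        · rw [mem_FF]
          exact ⟨(hD.2 i).2.2.1, fun μ => int_le _ _ (hw i μ)⟩
    · intro k μ
      refine int_le_pow _ H _ θ hH ?_ (hw k μ)
      have := Nat.le_ceil θ
      push_cast
      linarith [(Nat.cast_nonneg (⌈η⌉₊) : (0 : ℝ) ≤ _)]
    · intro k j
      refine int_le_pow _ H _ η hH ?_ (hz k j)
      have := Nat.le_ceil η
      push_cast
      linarith [(Nat.cast_nonneg (⌈θ⌉₊) : (0 : ℝ) ≤ _)]
  have hfinU : (⋃ i ∈ I, A i).Finite := by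
    refine (Finset.finite_toSet (FF (m + 1) d H)).subset ?_
    intro f hf
    rw [Set.mem_iUnion₂] at hf
    obtain ⟨i, _, hfi⟩ := hf
    exact hfi.1
  have h1 := (Set.ncard_le_ncard hsub hfinU).trans (Finset.set_ncard_biUnion_le I A)
  have h2 : (((∑ i ∈ I, (A i).ncard : ℕ)) : ℝ) ≤ #I * Bd := by
    rw [Nat.cast_sum, ← nsmul_eq_mul]
    exact Finset.sum_le_card_nsmul _ _ _ hAle
  have h3 : ((#I : ℕ) : ℝ) ≤ (3 * a) ^ ((m + 2) ^ 2) * (((D : ℝ) + 1) ^ m *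
      (((D : ℝ) + 1) * (3 * b) ^ P) ^ m) := by
    have hcard : #I = (2 * V + 1) ^ ((m + 2) ^ 2) * ((D + 1) ^ m * (#(WS D U)) ^ m) := by
      rw [hI, Finset.card_product, Finset.card_product, Fintype.card_piFinset,
        Fintype.card_piFinset, Fintype.card_piFinset]
      simp only [Fintype.card_piFinset, Int.card_Icc, Finset.prod_const, Finset.card_univ,
        Fintype.card_fin, Finset.card_range]
      have e : ((V : ℤ) + 1 - -(V : ℤ)).toNat = 2 * V + 1 := by omega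
      rw [e, ← pow_mul, pow_two]
    rw [hcard]
    push_cast
    have h4 : ((#(WS D U) : ℕ) : ℝ) ≤ ((D : ℝ) + 1) * (3 * b) ^ P := by
      have h5 : ((#(WS D U) : ℕ) : ℝ) ≤ (((D + 1) * (2 * U + 1) ^ (D + 2).choose 2 : ℕ) : ℝ) := by
        exact_mod_cast card_WS D U
      refine h5.trans ?_
      push_cast
      refine mul_le_mul_of_nonneg_left ?_ (by positivity)
      exact pow_le_pow_left₀ (by positivity) hU3 _
    refine mul_le_mul ?_ ?_ (by positivity) (by positivity)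
    · exact pow_le_pow_left₀ (by positivity) hV3 _
    · refine mul_le_mul_of_nonneg_left ?_ (by positivity)
      exact pow_le_pow_left₀ (by positivity) h4 _
  have h4 : Bd ≤ C * a ^ d * (H : ℝ) ^ ((1 - S) / 2) * (H : ℝ) ^ (NN (m + 1) d - 1) := by
    rw [hBd]
    refine mul_le_mul_of_nonneg_right ?_ (by positivity)
    refine mul_le_mul_of_nonneg_right ?_ (by positivity)
    refine mul_le_mul_of_nonneg_left ?_ hC.le
    exact pow_le_pow_left₀ (by positivity) hV2 _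
  have h5 : (H : ℝ) ^ (NN (m + 1) d - 1) = (H : ℝ) ^ (-1 : ℝ) * (H : ℝ) ^ NN (m + 1) d := by
    have e : (H : ℝ) ^ NN (m + 1) d = (H : ℝ) ^ (NN (m + 1) d - 1) * H := by
      rw [← pow_succ]
      have := NN_pos (m + 1) d
      rw [Nat.sub_add_cancel this]
    rw [e, Real.rpow_neg_one]
    field_simp
  have hpa : ∀ n : ℕ, a ^ n = (H : ℝ) ^ (η * n) := by
    intro n
    rw [ha, Real.rpow_mul hH0.le, Real.rpow_natCast]
  have hpb : ∀ n : ℕ, b ^ n = (H : ℝ) ^ (θ * n) := by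
    intro n
    rw [hb, Real.rpow_mul hH0.le, Real.rpow_natCast]
  have h6 : a ^ ((m + 2) ^ 2) * b ^ (P * m) * a ^ d * (H : ℝ) ^ ((1 - S) / 2) * (H : ℝ) ^ (-1 : ℝ) =
      (H : ℝ) ^ (-((1 - S) / 2)) := by
    rw [hpa, hpb, hpa, ← Real.rpow_add hH0, ← Real.rpow_add hH0, ← Real.rpow_add hH0,
      ← Real.rpow_add hH0]
    have e : η * (((m + 2) ^ 2 : ℕ) : ℝ) + θ * ((P * m : ℕ) : ℝ) + η * (d : ℕ) + (1 - S) / 2 + -1 =
        -((1 - S) / 2) := by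
      rw [hSdef]
      push_cast
      rw [hP, Pval]
      ring
    rw [e]
  have h7 : (({f | f ∈ FF (m + 1) d H ∧ ∃ (x : Fin (m + 2) → ℤ)
      (z : Matrix (Fin (m + 2)) (Fin (m + 2)) ℤ)
      (e : Fin m → ℕ) (w : Fin m → MvPolynomial (Fin 3) ℤ), x ≠ 0 ∧ IsD D z e w ∧
      (∀ i j, |((z i j : ℤ) : ℝ)| ≤ (H : ℝ) ^ η) ∧
      (∀ i μ, |(((w i).coeff μ : ℤ) : ℝ)| ≤ (H : ℝ) ^ θ) ∧ OnC z w x ∧
      eval x f = 0}.ncard : ℕ) : ℝ) ≤ ((∑ i ∈ I, (A i).ncard : ℕ) : ℝ) := by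
    exact_mod_cast h1
  refine (h7.trans h2).trans ?_
  refine (mul_le_mul h3 h4 hBd0 (by positivity)).trans (le_of_eq ?_)
  have h8 : (((D : ℝ) + 1) * (3 * b) ^ P) ^ m = (((D : ℝ) + 1) * 3 ^ P) ^ m * b ^ (P * m) := by
    rw [mul_pow 3 b P, ← mul_assoc, mul_pow (((D : ℝ) + 1) * 3 ^ P), ← pow_mul]
  rw [h5, ← h6, h8, mul_pow 3 a]
  ring

end Pool.Agent.H49.CV
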